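import Pool.Agent.KS6_37.EL.Tower

/-!
# Analytic families of elements of the towers

(The construction of the countable family follows the library file `NoCommonTower`; new here: the
members of the family take their values in the towers.)
-/

set_option autoImplicit false

open Set Topology

namespace Pool.Agent.KS6_37.EL

/-! ### Analytic discs -/

/-- A set together with a function. -/
abbrev Disc := Set ℂ × (ℂ → ℂ)

/-- open connected domain, analytic function with values in the towers -/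
def GoodDisc (d : Disc) : Prop :=
  IsOpen d.1 ∧ IsPreconnected d.1 ∧ AnalyticOnNhd ℂ d.2 d.1 ∧ ∀ s ∈ d.1, d.2 s ∈ W s

lemma near {d : Disc} (hd : GoodDisc d) {z : ℂ × ℂ} (hz : z.1 ∈ d.1) :
    ∀ᶠ v in 𝓝 z, v.1 ∈ d.1 :=
  continuous_fst.continuousAt.eventually_mem (hd.1.mem_nhds hz)

/-- values at `s` -/
def Val (G : Set Disc) (s : ℂ) : Set ℂ := {x | ∃ d ∈ G, s ∈ d.1 ∧ d.2 s = x}

lemma Val.mono {G H : Set Disc} (h : G ⊆ H) (s : ℂ) : Val G s ⊆ Val H s :=
  fun _ ⟨d, hd, h1⟩ => ⟨d, h hd, h1⟩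

/-- the local form of the implicit function theorem -/
def Reg (F : ℂ × ℂ → ℂ) (z : ℂ × ℂ) : Prop :=
  F z = 0 ∧ AnalyticAt ℂ F z ∧ (∃ c : ℂ, c ≠ 0 ∧ HasDerivAt (fun x => F (z.1, x)) c z.2) ∧
    ∀ᶠ v in 𝓝 z, F v = 0 → v.2 ∈ W v.1

open scoped ContDiff in
lemma local_disc (F : ℂ × ℂ → ℂ) (z : ℂ × ℂ) (h : Reg F z) :
    ∃ U ∈ 𝓝 z, ∃ d : Disc, GoodDisc d ∧ ∀ v ∈ U, F v = 0 → v.1 ∈ d.1 ∧ d.2 v.1 = v.2 := by
  obtain ⟨h0, hF, ⟨c, hc, hd⟩, hW⟩ := h
  have hcd : ContDiffAt ℂ ω F z := hF.contDiffAt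
  have hinr : (fderiv ℂ F z ∘L .inr ℂ ℂ ℂ) = ContinuousLinearMap.toSpanSingleton ℂ c := by
    have h1 : HasFDerivAt F (fderiv ℂ F z) z := hF.differentiableAt.hasFDerivAt
    have h2 : HasFDerivAt (fun x : ℂ => (z.1, x)) (ContinuousLinearMap.inr ℂ ℂ ℂ) z.2 :=
      hasFDerivAt_prodMk_right z.1 z.2
    have h3 : HasFDerivAt (fun x => F (z.1, x)) (fderiv ℂ F z ∘L .inr ℂ ℂ ℂ) z.2 :=
      HasFDerivAt.comp z.2 (by exact h1) h2
    exact h3.unique hd.hasFDerivAt
  have hinv : (fderiv ℂ F z ∘L .inr ℂ ℂ ℂ).IsInvertible := by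
    rw [hinr]
    refine ⟨ContinuousLinearEquiv.smulLeft (Units.mk0 c hc), ?_⟩
    ext
    simp
  set f := hcd.implicitFunction (by simp) hinv with hf
  have h1 := hcd.eventually_apply_eq_iff_implicitFunction (by simp) hinv
  have h2 := (hcd.contDiffAt_implicitFunction (by simp) hinv).analyticAt
  have hf0 : f z.1 = z.2 := hcd.implicitFunction_apply_self (by simp) hinv
  have hcont : Filter.Tendsto (fun s => (s, f s)) (𝓝 z.1) (𝓝 z) := by
    have h3 : ContinuousAt (fun s => (s, f s)) z.1 :=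
      continuousAt_id.prodMk h2.continuousAt
    have h4 := h3.tendsto
    rwa [show (z.1, f z.1) = z from Prod.ext rfl hf0] at h4
  have h5 : ∀ᶠ s in 𝓝 z.1, f s ∈ W s := by
    filter_upwards [hcont.eventually h1, hcont.eventually hW] with s hs1 hs2
    exact hs2 ((hs1.2 rfl).trans h0)
  obtain ⟨r, hr, hball⟩ := Metric.eventually_nhds_iff_ball.1 (h2.eventually_analyticAt.and h5)
  refine ⟨{v | (F v = F z ↔ f v.1 = v.2)} ∩ (Prod.fst ⁻¹' Metric.ball z.1 r), ?_,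
    ⟨Metric.ball z.1 r, f⟩, ⟨Metric.isOpen_ball, (convex_ball _ _).isPreconnected, fun s hs => (hball s hs).1,
      fun s hs => (hball s hs).2⟩, ?_⟩
  · refine Filter.inter_mem h1 ?_
    exact continuous_fst.continuousAt.preimage_mem_nhds (Metric.ball_mem_nhds _ hr)
  · rintro v ⟨hv1, hv2⟩ hv0
    exact ⟨hv2, hv1.1 (by rw [hv0, h0])⟩

lemma cover (F : ℂ × ℂ → ℂ) (Z : Set (ℂ × ℂ)) (h : ∀ z ∈ Z, Reg F z) :
    ∃ H : Set Disc, H.Countable ∧ (∀ d ∈ H, GoodDisc d) ∧ ∀ z ∈ Z, z.2 ∈ Val H z.1 := by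
  choose! U hU d hd hUd using fun z (hz : z ∈ Z) => local_disc F z (h z hz)
  obtain ⟨t, htZ, htc, hcov⟩ := TopologicalSpace.countable_cover_nhdsWithin (s := Z) (f := U)
    (fun z hz => mem_nhdsWithin_of_mem_nhds (hU z hz))
  refine ⟨d '' t, htc.image d, ?_, ?_⟩
  · rintro _ ⟨z, hz, rfl⟩
    exact hd z (htZ hz)
  · intro z hz
    obtain ⟨w, hw, hzw⟩ := mem_iUnion₂.1 (hcov hz)
    have := hUd w (htZ hw) z hzw (h z hz).1
    exact ⟨d w, mem_image_of_mem d hw, this.1, this.2⟩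

lemma cover_family {ι : Type*} [Countable ι] (F : ι → ℂ × ℂ → ℂ) (Z : ι → Set (ℂ × ℂ))
    (h : ∀ i, ∀ z ∈ Z i, Reg (F i) z) :
    ∃ H : Set Disc, H.Countable ∧ (∀ d ∈ H, GoodDisc d) ∧ ∀ i, ∀ z ∈ Z i, z.2 ∈ Val H z.1 := by
  choose H hH hHd hHZ using fun i => cover (F i) (Z i) (h i)
  refine ⟨⋃ i, H i, countable_iUnion hH, ?_, ?_⟩
  · intro d hd
    obtain ⟨i, hi⟩ := mem_iUnion.1 hd
    exact hHd i d hi
  · intro i z hz
    exact Val.mono (subset_iUnion H i) _ (hHZ i z hz)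

/-- closure properties -/
structure Step (G G' : Set Disc) : Prop where
  sub : G ⊆ G'
  one : ∀ s, (1 : ℂ) ∈ Val G' s
  add : ∀ s x y, x ∈ Val G s → y ∈ Val G s → x - y ∈ Val G' s
  mul : ∀ s x y, x ∈ Val G s → y ∈ Val G s → x * y ∈ Val G' s
  inv : ∀ s x, x ∈ Val G s → x ≠ 0 → x⁻¹ ∈ Val G' s
  exp : ∀ s x, x ∈ Val G s → Complex.exp (x * s) ∈ Val G' s
  log : ∀ s w, s ≠ 0 → Complex.exp (w * s) ∈ Val G s → w ∈ Val G' s
  root : ∀ (s : ℂ) (p : Polynomial ℂ) (w : ℂ), (∀ i, p.coeff i ∈ Val G s) → p.eval w = 0 →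
    p.derivative.eval w ≠ 0 → w ∈ Val G' s

lemma exists_step (G : Set Disc) (hG : G.Countable) (hgood : ∀ d ∈ G, GoodDisc d) :
    ∃ G' : Set Disc, G'.Countable ∧ (∀ d ∈ G', GoodDisc d) ∧ Step G G' := by
  have : Countable G := hG.to_subtype
  -- differences
  obtain ⟨H1, h1c, h1g, h1⟩ := cover_family (ι := G × G)
    (fun i z => z.2 - (i.1.1.2 z.1 - i.2.1.2 z.1))
    (fun i => {z | z.1 ∈ i.1.1.1 ∧ z.1 ∈ i.2.1.1 ∧ z.2 = i.1.1.2 z.1 - i.2.1.2 z.1}) (by
      rintro ⟨⟨d, hd⟩, ⟨e, he⟩⟩ z ⟨hz1, hz2, hz3⟩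
      have had := (hgood d hd).2.2.1 _ hz1
      have hae := (hgood e he).2.2.1 _ hz2
      refine ⟨by simp [hz3], ?_, ⟨1, one_ne_zero, ?_⟩, ?_⟩
      · exact analyticAt_snd.sub ((had.fun_comp analyticAt_fst).sub (hae.fun_comp analyticAt_fst))
      · exact (hasDerivAt_id' z.2).sub_const (d.2 z.1 - e.2 z.1)
      · filter_upwards [near (hgood d hd) hz1, near (hgood e he) hz2] with v hv1 hv2 hv
        rw [sub_eq_zero.1 hv]
        exact (Wf v.1).sub_mem ((hgood d hd).2.2.2 _ hv1)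
          ((hgood e he).2.2.2 _ hv2))
  -- products
  obtain ⟨H2, h2c, h2g, h2⟩ := cover_family (ι := G × G)
    (fun i z => z.2 - (i.1.1.2 z.1 * i.2.1.2 z.1))
    (fun i => {z | z.1 ∈ i.1.1.1 ∧ z.1 ∈ i.2.1.1 ∧ z.2 = i.1.1.2 z.1 * i.2.1.2 z.1}) (by
      rintro ⟨⟨d, hd⟩, ⟨e, he⟩⟩ z ⟨hz1, hz2, hz3⟩
      have had := (hgood d hd).2.2.1 _ hz1
      have hae := (hgood e he).2.2.1 _ hz2
      refine ⟨by simp [hz3], ?_, ⟨1, one_ne_zero, ?_⟩, ?_⟩
      · exact analyticAt_snd.sub ((had.fun_comp analyticAt_fst).mul (hae.fun_comp analyticAt_fst))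
      · exact (hasDerivAt_id' z.2).sub_const (d.2 z.1 * e.2 z.1)
      · filter_upwards [near (hgood d hd) hz1, near (hgood e he) hz2] with v hv1 hv2 hv
        rw [sub_eq_zero.1 hv]
        exact (Wf v.1).mul_mem ((hgood d hd).2.2.2 _ hv1)
          ((hgood e he).2.2.2 _ hv2))
  -- inverses
  obtain ⟨H3, h3c, h3g, h3⟩ := cover_family (ι := G)
    (fun i z => z.2 - (i.1.2 z.1)⁻¹)
    (fun i => {z | z.1 ∈ i.1.1 ∧ i.1.2 z.1 ≠ 0 ∧ z.2 = (i.1.2 z.1)⁻¹}) (by
      rintro ⟨d, hd⟩ z ⟨hz1, hz2, hz3⟩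
      have had := (hgood d hd).2.2.1 _ hz1
      refine ⟨by simp [hz3], ?_, ⟨1, one_ne_zero, ?_⟩, ?_⟩
      · exact analyticAt_snd.sub ((had.fun_comp analyticAt_fst).inv hz2)
      · exact (hasDerivAt_id' z.2).sub_const (d.2 z.1)⁻¹
      · filter_upwards [near (hgood d hd) hz1] with v hv1 hv
        rw [sub_eq_zero.1 hv]
        exact (Wf v.1).inv_mem ((hgood d hd).2.2.2 _ hv1))
  -- exponentials
  obtain ⟨H4, h4c, h4g, h4⟩ := cover_family (ι := G)
    (fun i z => z.2 - Complex.exp (i.1.2 z.1 * z.1))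
    (fun i => {z | z.1 ∈ i.1.1 ∧ z.2 = Complex.exp (i.1.2 z.1 * z.1)}) (by
      rintro ⟨d, hd⟩ z ⟨hz1, hz3⟩
      have had := (hgood d hd).2.2.1 _ hz1
      refine ⟨by simp [hz3], ?_, ⟨1, one_ne_zero, ?_⟩, ?_⟩
      · exact analyticAt_snd.sub (((had.fun_comp analyticAt_fst).mul analyticAt_fst).cexp)
      · exact (hasDerivAt_id' z.2).sub_const (Complex.exp (d.2 z.1 * z.1))
      · filter_upwards [near (hgood d hd) hz1] with v hv1 hv
        rw [sub_eq_zero.1 hv]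
        exact W_exp ((hgood d hd).2.2.2 _ hv1))
  -- logarithms
  obtain ⟨H5, h5c, h5g, h5⟩ := cover_family (ι := G)
    (fun i z => Complex.exp (z.2 * z.1) - i.1.2 z.1)
    (fun i => {z | z.1 ∈ i.1.1 ∧ z.1 ≠ 0 ∧ Complex.exp (z.2 * z.1) = i.1.2 z.1}) (by
      rintro ⟨d, hd⟩ z ⟨hz1, hz2, hz3⟩
      have had := (hgood d hd).2.2.1 _ hz1
      refine ⟨by simp [hz3], ?_, ⟨Complex.exp (z.2 * z.1) * (1 * z.1),
        mul_ne_zero (Complex.exp_ne_zero _) (by simpa using hz2), ?_⟩, ?_⟩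
      · exact ((analyticAt_snd.mul analyticAt_fst).cexp).sub (had.fun_comp analyticAt_fst)
      · exact (((hasDerivAt_id' z.2).mul_const z.1).cexp).sub_const (d.2 z.1)
      · filter_upwards [near (hgood d hd) hz1] with v hv1 hv
        refine W_log ?_
        rw [sub_eq_zero.1 hv]
        exact (hgood d hd).2.2.2 _ hv1)
  -- simple roots
  obtain ⟨H6, h6c, h6g, h6⟩ := cover_family (ι := Σ n : ℕ, (Fin n → G))
    (fun i z => ∑ j : Fin i.1, (i.2 j).1.2 z.1 * z.2 ^ (j : ℕ))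
    (fun i => {z | (∀ j, z.1 ∈ (i.2 j).1.1) ∧ Reg
      (fun z => ∑ j : Fin i.1, (i.2 j).1.2 z.1 * z.2 ^ (j : ℕ)) z}) (by
      rintro ⟨n, c⟩ z ⟨hz1, hz2⟩
      exact hz2)
  refine ⟨G ∪ {(univ, fun _ => 1)} ∪ H1 ∪ H2 ∪ H3 ∪ H4 ∪ H5 ∪ H6, ?_, ?_, ?_⟩
  · exact (((((((hG.union (countable_singleton _)).union h1c).union h2c).union h3c).union
      h4c).union h5c).union h6c)
  · rintro d (((((((hd | hd) | hd) | hd) | hd) | hd) | hd) | hd)
    · exact hgood d hd
    · rw [mem_singleton_iff] at hd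
      subst hd
      exact ⟨isOpen_univ, isPreconnected_univ, analyticOnNhd_const,
        fun s _ => one_mem (S := Subfield ℂ) (Wf s)⟩
    · exact h1g d hd
    · exact h2g d hd
    · exact h3g d hd
    · exact h4g d hd
    · exact h5g d hd
    · exact h6g d hd
  · have s0 : G ⊆ G ∪ {(univ, fun _ => 1)} ∪ H1 ∪ H2 ∪ H3 ∪ H4 ∪ H5 ∪ H6 := by
      intro d hd; simp [hd]
    have s1 : H1 ⊆ G ∪ {(univ, fun _ => 1)} ∪ H1 ∪ H2 ∪ H3 ∪ H4 ∪ H5 ∪ H6 := by
      intro d hd; simp [hd]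
    have s2 : H2 ⊆ G ∪ {(univ, fun _ => 1)} ∪ H1 ∪ H2 ∪ H3 ∪ H4 ∪ H5 ∪ H6 := by
      intro d hd; simp [hd]
    have s3 : H3 ⊆ G ∪ {(univ, fun _ => 1)} ∪ H1 ∪ H2 ∪ H3 ∪ H4 ∪ H5 ∪ H6 := by
      intro d hd; simp [hd]
    have s4 : H4 ⊆ G ∪ {(univ, fun _ => 1)} ∪ H1 ∪ H2 ∪ H3 ∪ H4 ∪ H5 ∪ H6 := by
      intro d hd; simp [hd]
    have s5 : H5 ⊆ G ∪ {(univ, fun _ => 1)} ∪ H1 ∪ H2 ∪ H3 ∪ H4 ∪ H5 ∪ H6 := by
      intro d hd; simp [hd]
    have s6 : H6 ⊆ G ∪ {(univ, fun _ => 1)} ∪ H1 ∪ H2 ∪ H3 ∪ H4 ∪ H5 ∪ H6 := by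
      intro d hd; simp [hd]
    refine ⟨s0, ?_, ?_, ?_, ?_, ?_, ?_, ?_⟩
    · intro s
      exact ⟨(univ, fun _ => 1), by simp, mem_univ _, rfl⟩
    · rintro s x y ⟨d, hd, hs, rfl⟩ ⟨e, he, hs', rfl⟩
      exact Val.mono s1 s (h1 (⟨d, hd⟩, ⟨e, he⟩) (s, d.2 s - e.2 s) ⟨hs, hs', rfl⟩)
    · rintro s x y ⟨d, hd, hs, rfl⟩ ⟨e, he, hs', rfl⟩
      exact Val.mono s2 s (h2 (⟨d, hd⟩, ⟨e, he⟩) (s, d.2 s * e.2 s) ⟨hs, hs', rfl⟩)
    · rintro s x ⟨d, hd, hs, rfl⟩ hx
      exact Val.mono s3 s (h3 ⟨d, hd⟩ (s, (d.2 s)⁻¹) ⟨hs, hx, rfl⟩)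
    · rintro s x ⟨d, hd, hs, rfl⟩
      exact Val.mono s4 s (h4 ⟨d, hd⟩ (s, Complex.exp (d.2 s * s)) ⟨hs, rfl⟩)
    · rintro s w hs0 ⟨d, hd, hs, hx⟩
      exact Val.mono s5 s (h5 ⟨d, hd⟩ (s, w) ⟨hs, hs0, hx.symm⟩)
    · intro s p w hp h0 h1
      choose d hd hs hx using hp
      have hF : (fun x => ∑ j : Fin (p.natDegree + 1), (d j).2 s * x ^ (j : ℕ)) =
          fun x => p.eval x := by
        ext x
        rw [Polynomial.eval_eq_sum_range, Finset.sum_range]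
        exact Finset.sum_congr rfl fun j _ => by rw [hx]
      refine Val.mono s6 s (h6 ⟨p.natDegree + 1, fun j => ⟨d j, hd j⟩⟩ (s, w) ⟨?_, ?_, ?_, ?_, ?_⟩)
      · intro j; exact hs j
      · exact (congrFun hF w).trans h0
      · refine Finset.analyticAt_fun_sum _ fun j _ => ?_
        exact (((hgood _ (hd j)).2.2.1 _ (hs j)).fun_comp analyticAt_fst).mul (analyticAt_snd.pow _)
      · refine ⟨p.derivative.eval w, h1, ?_⟩
        show HasDerivAt (fun x => ∑ j : Fin (p.natDegree + 1), (d j).2 s * x ^ (j : ℕ)) _ w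
        rw [hF]
        exact p.hasDerivAt w
      · have hp0 : p ≠ 0 := by
          rintro rfl
          simp at h1
        have hlead : (d p.natDegree).2 s ≠ 0 := by
          rw [hx]
          exact Polynomial.leadingCoeff_ne_zero.2 hp0
        have e1 : ∀ᶠ v in 𝓝 ((s, w) : ℂ × ℂ), ∀ j : Fin (p.natDegree + 1), v.1 ∈ (d j).1 :=
          Filter.eventually_all.2 fun j => near (hgood _ (hd j)) (hs j)
        have e2 : ∀ᶠ v in 𝓝 ((s, w) : ℂ × ℂ), (d p.natDegree).2 v.1 ≠ 0 := by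
          have hc : ContinuousAt (fun v : ℂ × ℂ => (d p.natDegree).2 v.1) (s, w) :=
            (((hgood _ (hd p.natDegree)).2.2.1 _ (hs p.natDegree)).continuousAt).comp
              continuous_fst.continuousAt
          exact hc.eventually_ne hlead
        filter_upwards [e1, e2] with v hv1 hv2 hv
        let q : Polynomial ℂ := ∑ j : Fin (p.natDegree + 1),
          Polynomial.monomial (j : ℕ) ((d j).2 v.1)
        have hq : ∀ i, q.coeff i = if i < p.natDegree + 1 then (d i).2 v.1 else 0 := by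
          intro i
          rw [Polynomial.finsetSum_coeff]
          simp only [Polynomial.coeff_monomial]
          split_ifs with hi
          · rw [Finset.sum_eq_single (⟨i, hi⟩ : Fin (p.natDegree + 1))]
            · simp
            · intro b _ hb
              rw [if_neg]
              intro h
              exact hb (Fin.ext h)
            · simp
          · refine Finset.sum_eq_zero fun j _ => ?_
            rw [if_neg]
            have := j.2
            omega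
        refine W_alg q ?_ ?_ ?_
        · intro h0
          have h1 := hq p.natDegree
          rw [h0, Polynomial.coeff_zero, if_pos (Nat.lt_succ_self _)] at h1
          exact hv2 h1.symm
        · intro i
          rw [hq]
          split_ifs with hi
          · exact (hgood _ (hd i)).2.2.2 _ (hv1 ⟨i, hi⟩)
          · exact zero_mem (S := Subfield ℂ) (Wf v.1)
        · have h2 : q.eval v.2 = ∑ j : Fin (p.natDegree + 1), (d j).2 v.1 * v.2 ^ (j : ℕ) := by
            simp only [q, Polynomial.eval_finsetSum, Polynomial.eval_monomial]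
          rw [h2]
          exact hv

/-- the whole family -/
lemma exists_family : ∃ G : Set Disc, G.Countable ∧ (∀ d ∈ G, GoodDisc d) ∧ Step G G := by
  choose! f hfc hfg hfs using exists_step
  let S : ℕ → Set Disc := fun n => Nat.rec ∅ (fun _ G => f G) n
  have hS : ∀ n, (S n).Countable ∧ ∀ d ∈ S n, GoodDisc d := by
    intro n
    induction n with
    | zero => exact ⟨countable_empty, by simp [S]⟩
    | succ n ih => exact ⟨hfc _ ih.1 ih.2, hfg _ ih.1 ih.2⟩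
  have hstep : ∀ n, Step (S n) (S (n + 1)) := fun n => hfs _ (hS n).1 (hS n).2
  have hmono : Monotone S := monotone_nat_of_le_succ fun n => (hstep n).sub
  have hval : ∀ s x, x ∈ Val (⋃ n, S n) s → ∃ n, x ∈ Val (S n) s := by
    rintro s x ⟨d, hd, hs, hx⟩
    obtain ⟨n, hn⟩ := mem_iUnion.1 hd
    exact ⟨n, d, hn, hs, hx⟩
  have hup : ∀ n s, Val (S n) s ⊆ Val (⋃ n, S n) s := fun n s => Val.mono (subset_iUnion S n) s
  have hle : ∀ m n s, m ≤ n → Val (S m) s ⊆ Val (S n) s := fun m n s h => Val.mono (hmono h) s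
  refine ⟨⋃ n, S n, countable_iUnion fun n => (hS n).1, ?_, ?_⟩
  · intro d hd
    obtain ⟨n, hn⟩ := mem_iUnion.1 hd
    exact (hS n).2 d hn
  · refine ⟨Subset.rfl, fun s => hup 1 s ((hstep 0).one s), ?_, ?_, ?_, ?_, ?_, ?_⟩
    · intro s x y hx hy
      obtain ⟨m, hm⟩ := hval s x hx
      obtain ⟨n, hn⟩ := hval s y hy
      exact hup (max m n + 1) s ((hstep (max m n)).add s x y (hle _ _ s (le_max_left m n) hm)
        (hle _ _ s (le_max_right m n) hn))
    · intro s x y hx hy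
      obtain ⟨m, hm⟩ := hval s x hx
      obtain ⟨n, hn⟩ := hval s y hy
      exact hup (max m n + 1) s ((hstep (max m n)).mul s x y (hle _ _ s (le_max_left m n) hm)
        (hle _ _ s (le_max_right m n) hn))
    · intro s x hx h0
      obtain ⟨m, hm⟩ := hval s x hx
      exact hup (m + 1) s ((hstep m).inv s x hm h0)
    · intro s x hx
      obtain ⟨m, hm⟩ := hval s x hx
      exact hup (m + 1) s ((hstep m).exp s x hm)
    · intro s w hs hx
      obtain ⟨m, hm⟩ := hval s _ hx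
      exact hup (m + 1) s ((hstep m).log s w hs hm)
    · intro s p w hp h0 h1
      choose m hm using fun i => hval s _ (hp i)
      set M := (Finset.range (p.natDegree + 1)).sup m with hM
      refine hup (max M (m (p.natDegree + 1)) + 1) s ((hstep (max M (m (p.natDegree + 1)))).root s p w (fun i => ?_) h0 h1)
      rcases Nat.lt_or_ge i (p.natDegree + 1) with h | h
      · refine hle _ _ s ?_ (hm i)
        exact (Finset.le_sup (f := m) (Finset.mem_range.2 h)).trans (le_max_left _ _)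
      · have e1 : p.coeff i = 0 := Polynomial.coeff_eq_zero_of_natDegree_lt (by omega)
        have e2 : p.coeff (p.natDegree + 1) = 0 :=
          Polynomial.coeff_eq_zero_of_natDegree_lt (by omega)
        rw [e1, ← e2]
        exact hle _ _ s (le_max_right _ _) (hm _)

/-- The set of values at `s` is a subfield of `ℂ`. -/
noncomputable def fld {G : Set Disc} (hG : Step G G) (s : ℂ) : Subfield ℂ where
  carrier := Val G s
  zero_mem' := by
    have := hG.add s 1 1 (hG.one s) (hG.one s)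
    rwa [sub_self] at this
  one_mem' := hG.one s
  neg_mem' := by
    intro x hx
    have h0 := hG.add s 1 1 (hG.one s) (hG.one s)
    rw [sub_self] at h0
    have := hG.add s 0 x h0 hx
    rwa [zero_sub] at this
  add_mem' := by
    intro x y hx hy
    have h0 := hG.add s 1 1 (hG.one s) (hG.one s)
    rw [sub_self] at h0
    have h1 := hG.add s 0 y h0 hy
    rw [zero_sub] at h1
    have h2 := hG.add s x (-y) hx h1
    rwa [sub_neg_eq_add] at h2
  mul_mem' := fun {x y} hx hy => hG.mul s x y hx hy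
  inv_mem' := by
    intro x hx
    rcases eq_or_ne x 0 with h | h
    · rw [h, inv_zero, ← h]; exact hx
    · exact hG.inv s x hx h

lemma Val_countable {G : Set Disc} (hG : G.Countable) (s : ℂ) : (Val G s).Countable := by
  refine (hG.image (fun d => d.2 s)).mono ?_
  rintro x ⟨d, hd, _, rfl⟩
  exact mem_image_of_mem _ hd

lemma level_countable {d : Disc} (hd : GoodDisc d) {a : ℂ} (ha : ¬ EqOn d.2 (fun _ => a) d.1) :
    {s | s ∈ d.1 ∧ d.2 s = a}.Countable := by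
  have hloc : ∀ s ∈ {s | s ∈ d.1 ∧ d.2 s = a}, ∃ U ∈ 𝓝 s, U ∩ {s | s ∈ d.1 ∧ d.2 s = a} ⊆ {s} := by
    rintro s ⟨hs, hsa⟩
    have han := hd.2.2.1 s hs
    rcases han.eventually_eq_or_eventually_ne (analyticAt_const (v := a)) with h | h
    · exfalso
      exact ha (hd.2.2.1.eqOn_of_preconnected_of_eventuallyEq analyticOnNhd_const hd.2.1 hs h)
    · rw [eventually_nhdsWithin_iff] at h
      refine ⟨_, h, ?_⟩
      rintro t ⟨ht1, ht2, ht3⟩
      by_contra hne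
      exact ht1 hne ht3
  choose! U hU hUs using hloc
  obtain ⟨t, ht, htc, hcov⟩ := TopologicalSpace.countable_cover_nhdsWithin
    (fun s hs => mem_nhdsWithin_of_mem_nhds (hU s hs))
  refine htc.mono fun s hs => ?_
  obtain ⟨w, hw, hsw⟩ := mem_iUnion₂.1 (hcov hs)
  have := hUs w (ht hw) ⟨hsw, hs⟩
  rw [mem_singleton_iff] at this
  rwa [this]


lemma W_subset {G : Set Disc} (hG : Step G G) {s : ℂ} (hs : s ≠ 0) : W s ⊆ Val G s := by
  refine W_min s (fld hG s) (fun x hx => hG.exp _ x hx) (fun w hw => hG.log _ w hs hw) ?_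
  intro p z hp hc hz
  have h1 : IsAlgebraic (fld hG s) z := (alg_iff _ z).2 ⟨p, hp, hc, hz⟩
  have hint := h1.isIntegral
  have hsep : (minpoly (fld hG s) z).Separable := (minpoly.irreducible hint).separable
  refine hG.root _ ((minpoly (fld hG s) z).map (algebraMap _ ℂ)) z ?_ ?_ ?_
  · intro i
    rw [Polynomial.coeff_map]
    exact ((minpoly (fld hG s) z).coeff i).2
  · rw [Polynomial.eval_map_algebraMap]
    exact minpoly.aeval _ z
  · rw [Polynomial.derivative_map, Polynomial.eval_map_algebraMap]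
    exact hsep.aeval_derivative_ne_zero (minpoly.aeval _ z)

/-- the dichotomy -/
theorem dichotomy (a : ℂ) : {s : ℂ | s ≠ 0 ∧ a ∈ W s}.Countable ∨
    ∃ O : Set ℂ, IsOpen O ∧ O.Nonempty ∧ ∀ s ∈ O, a ∈ W s := by
  obtain ⟨G, hGc, hGg, hG⟩ := exists_family
  by_cases h : ∃ d ∈ G, d.1.Nonempty ∧ EqOn d.2 (fun _ => a) d.1
  · obtain ⟨d, hd, hne, heq⟩ := h
    refine Or.inr ⟨d.1, (hGg d hd).1, hne, fun s hs => ?_⟩
    have h1 := (hGg d hd).2.2.2 s hs
    rwa [heq hs] at h1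
  · push Not at h
    left
    have h1 : {s : ℂ | s ≠ 0 ∧ a ∈ W s} ⊆ ⋃ d ∈ G, {s | s ∈ d.1 ∧ d.2 s = a} := by
      rintro s ⟨hs, ha⟩
      obtain ⟨d, hd, hs1, hs2⟩ := W_subset hG hs ha
      exact mem_iUnion₂.2 ⟨d, hd, hs1, hs2⟩
    refine (hGc.biUnion fun d hd => ?_).mono h1
    rcases d.1.eq_empty_or_nonempty with h2 | h2
    · simp [h2]
    · exact level_countable (hGg d hd) (h d hd h2)

lemma W_countable {s : ℂ} (hs : s ≠ 0) : (W s).Countable := by
  obtain ⟨G, hGc, hGg, hG⟩ := exists_family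
  exact (Val_countable hGc s).mono (W_subset hG hs)

end Pool.Agent.KS6_37.EL
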