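import Pool.Agent.KS6_37.EL.Disc

/-!
# The dichotomy for the towers
-/

set_option autoImplicit false

open Set Topology Cardinal

namespace Pool.Agent.KS6_37.EL

lemma log_ne {c : ℂ} (h0 : c ≠ 0) (h1 : c ≠ 1) : Complex.log c ≠ 0 := by
  intro h
  apply h1
  rw [← Complex.exp_log h0, h, Complex.exp_zero]

lemma self_mem {c : ℂ} (h0 : c ≠ 0) : c ∈ W (Complex.log c) := by
  have h1 : (1 : ℂ) ∈ W (Complex.log c) := one_mem (Wf (Complex.log c))
  have h2 := W_exp h1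
  rwa [one_mul, Complex.exp_log h0] at h2

lemma W_le {a c : ℂ} (a0 : a ≠ 0) (a1 : a ≠ 1) (c0 : c ≠ 0) (c1 : c ≠ 1)
    (h : a ∈ W (Complex.log c)) : W (Complex.log a) ⊆ W (Complex.log c) :=
  W_sub (log_ne a0 a1) (log_ne c0 c1) (by rwa [Complex.exp_log a0])

lemma two_le {c : ℂ} (c0 : c ≠ 0) (c1 : c ≠ 1) : W (Complex.log 2) ⊆ W (Complex.log c) := by
  refine W_le two_ne_zero (by norm_num) c0 c1 ?_
  have := gauss (Complex.log c) 2 0
  simpa using this

/-- a nonempty open set of logarithms contains a logarithm of a number in `ℚ(i)` -/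
lemma exists_gauss (O : Set ℂ) (hO : IsOpen O) (hne : O.Nonempty) :
    ∃ s ∈ O, s ≠ 0 ∧ ∃ x y : ℚ, Complex.exp s = (x : ℂ) + y * Complex.I := by
  have h1 : IsOpen (O ∩ {0}ᶜ) := hO.inter isOpen_compl_singleton
  obtain ⟨s0, hs0⟩ := (dense_compl_singleton (0 : ℂ)).inter_open_nonempty O hO hne
  have h2 : IsOpen (Complex.exp '' (O ∩ {0}ᶜ)) := Complex.isOpenMap_exp _ h1
  obtain ⟨r, hr, hball⟩ := Metric.isOpen_iff.1 h2 (Complex.exp s0) (mem_image_of_mem _ hs0)
  obtain ⟨x, hx1, hx2⟩ := exists_rat_btwn (show (Complex.exp s0).re < (Complex.exp s0).re + r / 2 by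
    linarith)
  obtain ⟨y, hy1, hy2⟩ := exists_rat_btwn (show (Complex.exp s0).im < (Complex.exp s0).im + r / 2 by
    linarith)
  have h3 : (x : ℂ) + y * Complex.I ∈ Metric.ball (Complex.exp s0) r := by
    rw [Metric.mem_ball, Complex.dist_eq]
    refine (Complex.norm_le_abs_re_add_abs_im _).trans_lt ?_
    have e1 : ((x : ℂ) + y * Complex.I - Complex.exp s0).re = x - (Complex.exp s0).re := by simp
    have e2 : ((x : ℂ) + y * Complex.I - Complex.exp s0).im = y - (Complex.exp s0).im := by simp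
    rw [e1, e2, abs_of_pos (by linarith), abs_of_pos (by linarith)]
    linarith
  obtain ⟨s, ⟨hs1, hs2⟩, hs3⟩ := hball h3
  exact ⟨s, hs1, hs2, x, y, hs3⟩

/-- an element which is not in the least tower is in the tower for countably many logarithms -/
theorem countable_logs (a : ℂ) (ha : a ∉ W (Complex.log 2)) :
    {s : ℂ | s ≠ 0 ∧ a ∈ W s}.Countable := by
  rcases dichotomy a with h | ⟨O, hO, hne, h⟩
  · exact h
  · exfalso
    obtain ⟨s, hs, hs0, x, y, he⟩ := exists_gauss O hO hne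
    refine ha (W_sub hs0 (log_ne two_ne_zero (by norm_num)) ?_ (h s hs))
    rw [he]
    exact gauss _ x y

/-- common upper bound -/
def HB (a b : ℂ) : Prop :=
  ∃ c : ℂ, c ≠ 0 ∧ c ≠ 1 ∧ W (Complex.log a) ⊆ W (Complex.log c) ∧
    W (Complex.log b) ⊆ W (Complex.log c)

lemma eq_two_iff {a : ℂ} (a0 : a ≠ 0) (a1 : a ≠ 1) :
    W (Complex.log a) = W (Complex.log 2) ↔ a ∈ W (Complex.log 2) := by
  constructor
  · intro h
    rw [← h]
    exact self_mem a0
  · intro h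
    exact Subset.antisymm (W_le a0 a1 two_ne_zero (by norm_num) h) (two_le a0 a1)

theorem countable_bases {a : ℂ} (a0 : a ≠ 0) (ha : a ∉ W (Complex.log 2)) :
    {c : ℂ | c ≠ 0 ∧ c ≠ 1 ∧ W (Complex.log a) ⊆ W (Complex.log c)}.Countable := by
  refine ((countable_logs a ha).image Complex.exp).mono ?_
  rintro c ⟨c0, c1, h⟩
  exact ⟨Complex.log c, ⟨log_ne c0 c1, h (self_mem a0)⟩, Complex.exp_log c0⟩

theorem countable_compat {a : ℂ} (a0 : a ≠ 0) (ha : a ∉ W (Complex.log 2)) :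
    {b : ℂ | b ≠ 0 ∧ b ≠ 1 ∧ HB a b}.Countable := by
  have h1 : {b : ℂ | b ≠ 0 ∧ b ≠ 1 ∧ HB a b} ⊆ ⋃ s ∈ {s : ℂ | s ≠ 0 ∧ a ∈ W s}, W s := by
    rintro b ⟨b0, b1, c, c0, c1, h1, h2⟩
    exact mem_iUnion₂.2 ⟨Complex.log c, ⟨log_ne c0 c1, h1 (self_mem a0)⟩, h2 (self_mem b0)⟩
  exact ((countable_logs a ha).biUnion fun s hs => W_countable hs.1).mono h1

lemma HB.symm {a b : ℂ} (h : HB a b) : HB b a := by
  obtain ⟨c, c0, c1, h1, h2⟩ := h
  exact ⟨c, c0, c1, h2, h1⟩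

/-- continuum many bases, no two of which have a common upper bound -/
theorem exists_antichain : ∃ P : Set ℂ, #P = 𝔠 ∧ (∀ a ∈ P, a ≠ 0 ∧ a ≠ 1) ∧
    ∀ a ∈ P, ∀ b ∈ P, a ≠ b → ¬ HB a b := by
  let X : Set ℂ := {a | a ≠ 0 ∧ a ≠ 1 ∧ a ∉ W (Complex.log 2)}
  let S : Set (Set ℂ) := {P | P ⊆ X ∧ P.Pairwise fun a b => ¬ HB a b}
  obtain ⟨P, hP⟩ := zorn_subset S (by
    intro c hc hchain
    refine ⟨⋃₀ c, ⟨sUnion_subset fun s hs => (hc hs).1, ?_⟩, fun s hs => subset_sUnion_of_mem hs⟩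
    rw [pairwise_sUnion hchain.directedOn]
    exact fun s hs => (hc hs).2)
  have hPX : P ⊆ X := hP.prop.1
  have hPw : P.Pairwise fun a b => ¬ HB a b := hP.prop.2
  have hcov : X ⊆ ⋃ p ∈ P, {b : ℂ | b ≠ 0 ∧ b ≠ 1 ∧ HB p b} := by
    intro b hb
    by_contra hc
    have hno : ∀ p ∈ P, ¬ HB p b := by
      intro p hp h
      exact hc (mem_iUnion₂.2 ⟨p, hp, hb.1, hb.2.1, h⟩)
    have hins : insert b P ∈ S := by
      refine ⟨insert_subset hb hPX, ?_⟩
      refine hPw.insert fun p hp _ => ⟨fun h => hno p hp h.symm, hno p hp⟩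
    have hbP : b ∈ P := hP.le_of_ge hins (subset_insert b P) (mem_insert b P)
    exact hno b hbP ⟨b, hb.1, hb.2.1, Subset.rfl, Subset.rfl⟩
  refine ⟨P, ?_, fun a ha => ⟨(hPX ha).1, (hPX ha).2.1⟩, fun a ha b hb hab => hPw ha hb hab⟩
  have hXc : Xᶜ.Countable := by
    have h1 : Xᶜ ⊆ {0, 1} ∪ W (Complex.log 2) := by
      intro a ha
      by_contra hc
      simp only [mem_union, mem_insert_iff, mem_singleton_iff, not_or] at hc
      exact ha ⟨hc.1.1, hc.1.2, hc.2⟩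
    exact (((countable_singleton (1 : ℂ)).insert 0).union
      (W_countable (log_ne two_ne_zero (by norm_num)))).mono h1
  have hX : #X = 𝔠 := by
    have h1 : #(Xᶜᶜ : Set ℂ) = #ℂ := by
      refine mk_compl_of_infinite _ ?_
      rw [Cardinal.mk_complex]
      exact (le_aleph0_iff_set_countable.2 hXc).trans_lt aleph0_lt_continuum
    rwa [compl_compl, Cardinal.mk_complex] at h1
  have hle : #X ≤ #P * ℵ₀ := by
    refine (mk_le_mk_of_subset hcov).trans ((mk_biUnion_le _ _).trans ?_)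
    refine mul_le_mul' le_rfl (ciSup_le' fun p => ?_)
    exact le_aleph0_iff_set_countable.2
      (countable_compat (hPX p.2).1 (hPX p.2).2.2)
  refine le_antisymm ?_ ?_
  · rw [← Cardinal.mk_complex]
    exact mk_set_le P
  · by_contra hlt
    push Not at hlt
    have h1 : #P * ℵ₀ < 𝔠 := mul_lt_of_lt (le_of_lt aleph0_lt_continuum) hlt aleph0_lt_continuum
    rw [hX] at hle
    exact absurd hle (not_le.2 h1)

end Pool.Agent.KS6_37.EL
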