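import Mathlib

/-!
# The field of exponential-logarithmic numbers for a given logarithm of the base
-/

set_option autoImplicit false

open Set Topology

namespace Pool.Agent.KS6_37.EL

/-- The algebraic closure in `ℂ` of the subfield generated by `S`. -/
def algCl (S : Set ℂ) : Set ℂ := {z | IsAlgebraic (Subfield.closure S) z}

/-- the levels, for the logarithm `s` of the base -/
def lev (s : ℂ) : ℕ → Set ℂ
  | 0 => Set.range ((↑) : ℚ → ℂ)
  | n + 1 => algCl (lev s n ∪ {y | ∃ x ∈ lev s n, y = Complex.exp (x * s)} ∪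
      {w | Complex.exp (w * s) ∈ lev s n})

/-- the tower -/
def W (s : ℂ) : Set ℂ := ⋃ n, lev s n

lemma alg_iff (K : Subfield ℂ) (z : ℂ) : IsAlgebraic K z ↔
    ∃ p : Polynomial ℂ, p ≠ 0 ∧ (∀ i, p.coeff i ∈ K) ∧ p.eval z = 0 := by
  constructor
  · rintro ⟨p, hp, hz⟩
    refine ⟨p.map (algebraMap K ℂ), ?_, fun i => ?_, ?_⟩
    · rwa [Ne, Polynomial.map_eq_zero]
    · rw [Polynomial.coeff_map]
      exact (p.coeff i).2
    · rwa [Polynomial.eval_map_algebraMap]
  · rintro ⟨p, hp, hc, hz⟩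
    have h1 : p ∈ Polynomial.lifts (algebraMap K ℂ) := by
      rw [Polynomial.lifts_iff_coeff_lifts]
      intro i
      exact ⟨⟨p.coeff i, hc i⟩, rfl⟩
    obtain ⟨q, hq⟩ := (Polynomial.mem_lifts p).1 h1
    refine ⟨q, ?_, ?_⟩
    · rintro rfl
      rw [Polynomial.map_zero] at hq
      exact hp hq.symm
    · rw [← Polynomial.eval_map_algebraMap, hq]
      exact hz

lemma sub_algCl (S : Set ℂ) : S ⊆ algCl S := fun x hx =>
  isAlgebraic_algebraMap (⟨x, Subfield.subset_closure hx⟩ : Subfield.closure S)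

lemma lev_mono (s : ℂ) (n : ℕ) : lev s n ⊆ lev s (n + 1) := fun _ hx =>
  sub_algCl _ (Or.inl (Or.inl hx))

lemma lev_le (s : ℂ) : Monotone (lev s) := monotone_nat_of_le_succ (lev_mono s)

/-- the levels as fields -/
noncomputable def Lf (s : ℂ) (n : ℕ) : Subfield ℂ :=
  (algebraicClosure (Subfield.closure (lev s n ∪ {y | ∃ x ∈ lev s n, y = Complex.exp (x * s)} ∪
      {w | Complex.exp (w * s) ∈ lev s n})) ℂ).toSubfield

lemma mem_Lf {s : ℂ} {n : ℕ} {x : ℂ} : x ∈ Lf s n ↔ x ∈ lev s (n + 1) :=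
  mem_algebraicClosure_iff

lemma common {s x y : ℂ} (hx : x ∈ W s) (hy : y ∈ W s) : ∃ n, x ∈ Lf s n ∧ y ∈ Lf s n := by
  obtain ⟨m, hm⟩ := mem_iUnion.1 hx
  obtain ⟨n, hn⟩ := mem_iUnion.1 hy
  exact ⟨max m n, mem_Lf.2 (lev_le s (by omega) hm), mem_Lf.2 (lev_le s (by omega) hn)⟩

lemma Lf_le (s : ℂ) (n : ℕ) {x : ℂ} (hx : x ∈ Lf s n) : x ∈ W s :=
  mem_iUnion.2 ⟨n + 1, mem_Lf.1 hx⟩

/-- the tower as a field -/
noncomputable def Wf (s : ℂ) : Subfield ℂ where
  carrier := W s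
  zero_mem' := Lf_le s 0 (zero_mem _)
  one_mem' := Lf_le s 0 (one_mem _)
  neg_mem' := by
    intro x hx
    obtain ⟨n, h, -⟩ := common hx hx
    exact Lf_le s n (neg_mem h)
  add_mem' := by
    intro x y hx hy
    obtain ⟨n, h, h'⟩ := common hx hy
    exact Lf_le s n (add_mem h h')
  mul_mem' := by
    intro x y hx hy
    obtain ⟨n, h, h'⟩ := common hx hy
    exact Lf_le s n (mul_mem h h')
  inv_mem' := by
    intro x hx
    obtain ⟨n, h, -⟩ := common hx hx
    exact Lf_le s n (inv_mem h)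

lemma mem_Wf {s x : ℂ} : x ∈ Wf s ↔ x ∈ W s := Iff.rfl

lemma W_exp {s x : ℂ} (hx : x ∈ W s) : Complex.exp (x * s) ∈ W s := by
  obtain ⟨n, hn⟩ := mem_iUnion.1 hx
  exact mem_iUnion.2 ⟨n + 1, sub_algCl _ (Or.inl (Or.inr ⟨x, hn, rfl⟩))⟩

lemma W_log {s w : ℂ} (hw : Complex.exp (w * s) ∈ W s) : w ∈ W s := by
  obtain ⟨n, hn⟩ := mem_iUnion.1 hw
  exact mem_iUnion.2 ⟨n + 1, sub_algCl _ (Or.inr hn)⟩

lemma W_alg {s z : ℂ} (p : Polynomial ℂ) (hp : p ≠ 0) (hc : ∀ i, p.coeff i ∈ W s)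
    (hz : p.eval z = 0) : z ∈ W s := by
  choose m hm using fun i => mem_iUnion.1 (hc i)
  set M := (Finset.range (p.natDegree + 1)).sup m with hM
  have h1 : ∀ i, p.coeff i ∈ Subfield.closure (lev s M ∪
      {y | ∃ x ∈ lev s M, y = Complex.exp (x * s)} ∪ {w | Complex.exp (w * s) ∈ lev s M}) := by
    intro i
    rcases Nat.lt_or_ge i (p.natDegree + 1) with h | h
    · refine Subfield.subset_closure (Or.inl (Or.inl (lev_le s ?_ (hm i))))
      exact Finset.le_sup (f := m) (Finset.mem_range.2 h)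
    · rw [Polynomial.coeff_eq_zero_of_natDegree_lt (by omega)]
      exact zero_mem _
  exact mem_iUnion.2 ⟨M + 1, (alg_iff _ z).2 ⟨p, hp, h1, hz⟩⟩

/-- a set closed under all operations contains the tower -/
lemma W_min (s : ℂ) (K : Subfield ℂ) (h1 : ∀ x ∈ K, Complex.exp (x * s) ∈ K)
    (h2 : ∀ w, Complex.exp (w * s) ∈ K → w ∈ K)
    (h3 : ∀ (p : Polynomial ℂ) (z : ℂ), p ≠ 0 → (∀ i, p.coeff i ∈ K) → p.eval z = 0 → z ∈ K) :
    W s ⊆ K := by
  refine iUnion_subset fun n => ?_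
  induction n with
  | zero =>
    rintro _ ⟨q, rfl⟩
    exact SubfieldClass.ratCast_mem K q
  | succ n ih =>
    intro z hz
    have hcl : Subfield.closure (lev s n ∪ {y | ∃ x ∈ lev s n, y = Complex.exp (x * s)} ∪
        {w | Complex.exp (w * s) ∈ lev s n}) ≤ K := by
      rw [Subfield.closure_le]
      rintro y ((hy | ⟨x, hx, rfl⟩) | hy)
      · exact ih hy
      · exact h1 x (ih hx)
      · exact h2 y (ih hy)
    obtain ⟨p, hp, hc, hz⟩ := (alg_iff _ z).1 hz
    exact h3 p z hp (fun i => hcl (hc i)) hz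

/-- towers whose bases are in another tower -/
lemma W_sub {s t : ℂ} (hs : s ≠ 0) (ht : t ≠ 0) (h : Complex.exp s ∈ W t) : W s ⊆ W t := by
  have h0 : s / t * t = s := div_mul_cancel₀ s ht
  have hw : s / t ∈ Wf t := W_log (by rwa [h0])
  have hw0 : s / t ≠ 0 := div_ne_zero hs ht
  refine W_min s (Wf t) ?_ ?_ ?_
  · intro x hx
    have h1 : Complex.exp (x * (s / t) * t) ∈ Wf t := W_exp (mul_mem hx hw)
    rwa [mul_assoc, h0] at h1
  · intro w hx
    have h1 : w * (s / t) ∈ Wf t := by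
      refine W_log ?_
      rw [mul_assoc, h0]
      exact hx
    have h2 := div_mem h1 hw
    rwa [mul_div_cancel_right₀ _ hw0] at h2
  · intro p z hp hc hz
    exact W_alg p hp hc hz

lemma gauss (t : ℂ) (x y : ℚ) : (x : ℂ) + y * Complex.I ∈ W t := by
  have hI : Complex.I ∈ Wf t := by
    refine W_alg (Polynomial.X ^ 2 + 1) ?_ ?_ ?_
    · intro h
      have := congrArg (Polynomial.eval 0) h
      simp at this
    · intro i
      have h1 : (Polynomial.X ^ 2 + 1 : Polynomial ℂ).coeff i =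
          (if i = 2 then 1 else 0) + (if i = 0 then 1 else 0) := by
        rw [Polynomial.coeff_add, Polynomial.coeff_X_pow, Polynomial.coeff_one]
      rw [h1]
      refine add_mem (S := Subfield ℂ) (s := Wf t) ?_ ?_
      · split_ifs
        · exact one_mem (Wf t)
        · exact zero_mem (Wf t)
      · split_ifs
        · exact one_mem (Wf t)
        · exact zero_mem (Wf t)
    · simp
  exact add_mem (SubfieldClass.ratCast_mem (Wf t) x) (mul_mem (SubfieldClass.ratCast_mem (Wf t) y) hI)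

end Pool.Agent.KS6_37.EL
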